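import Mathlib
import Pool.Agent.X189.GS.Alg

set_option autoImplicit false

/-!
A commutative Banach algebra whose spectrum is countably generated and whose Gelfand space is not
separable.

The algebra consists of the bounded sequences of continuous functions on the union of the bottom
and the lateral surface of the solid cylinder `[0,1] × closed disc` which are asymptotic to
functions on the solid cylinder that are analytic on every horizontal slice.
-/

namespace Pool.Agent.Results.MP_3ada3c_an.NonSeparableGelfand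

open Topology Filter unitInterval BoundedContinuousFunction
open Pool.Agent.X189.GS

/-- `S` generates the spectrum in `A`: the spectrum of every `x` is the closure of the set of the
values at `x` of the characters in `S`. -/
def GeneratesSpectrum (A : Type) [NormedCommRing A] [NormedAlgebra ℂ A]
    (S : Set (WeakDual.characterSpace ℂ A)) : Prop :=
  ∀ x : A, spectrum ℂ x = closure {c : ℂ | ∃ φ ∈ S, φ x = c}

noncomputable section

/-- a countable dense set of the surface -/
def DD : Set Sg := (TopologicalSpace.exists_countable_dense Sg).choose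

lemma DD_countable : DD.Countable := (TopologicalSpace.exists_countable_dense Sg).choose_spec.1
lemma DD_dense : Dense DD := (TopologicalSpace.exists_countable_dense Sg).choose_spec.2

/-- the countable generating set -/
def S0 : Set (WeakDual.characterSpace ℂ AA) :=
  (fun q : ℕ × Sg => evC q) '' (Set.univ ×ˢ DD)

lemma S0_countable : S0.Countable := (Set.countable_univ.prod DD_countable).image _

lemma gen : GeneratesSpectrum AA S0 := by
  intro x
  apply Set.Subset.antisymm
  · intro c hc
    by_contra hcl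
    rw [Metric.mem_closure_iff] at hcl
    push Not at hcl
    obtain ⟨δ, hδ, hd⟩ := hcl
    have h1 : ∀ q : ℕ × Sg, δ ≤ ‖((algebraMap ℂ AA c - x : AA) : BB) q‖ := by
      rintro ⟨n, s⟩
      have hcont : Continuous fun s : Sg => ‖((algebraMap ℂ AA c - x : AA) : BB) (n, s)‖ := by
        fun_prop
      have hcl : IsClosed {s : Sg | δ ≤ ‖((algebraMap ℂ AA c - x : AA) : BB) (n, s)‖} :=
        isClosed_le continuous_const hcont
      have hsub : DD ⊆ {s : Sg | δ ≤ ‖((algebraMap ℂ AA c - x : AA) : BB) (n, s)‖} := by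
        intro s hs
        have := hd ((x : BB) (n, s)) ⟨evC (n, s), ⟨(n, s), ⟨Set.mem_univ _, hs⟩, rfl⟩, rfl⟩
        rw [dist_eq_norm] at this
        exact this
      have := closure_minimal hsub hcl
      rw [DD_dense.closure_eq] at this
      exact this (Set.mem_univ s)
    exact hc (unit_of_lower _ hδ h1)
  · refine closure_minimal ?_ (spectrum.isClosed x)
    rintro c ⟨φ, -, rfl⟩
    exact AlgHom.apply_mem_spectrum (WeakDual.CharacterSpace.toAlgHom φ) x

/-- an element from a good function, constant in `n` -/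
def ofGood (F : C(I × Disc, ℂ)) (hF : Good F) (C : ℝ) (hC : ∀ q, ‖F q‖ ≤ C) : AA :=
  ⟨BoundedContinuousFunction.ofNormedAddCommGroup (fun q : ℕ × Sg => F q.2.1) (by fun_prop) C
    fun q => hC _, InA.of_eventually 0 fun _ _ => ⟨F, hF, fun _ => rfl⟩⟩

lemma norm_tau_le (q : I × Disc) : ‖tauF q‖ ≤ 1 := by
  show ‖1 - ((q.1 : ℝ) : ℂ)‖ ≤ 1
  have h : 1 - ((q.1 : ℝ) : ℂ) = ((1 - (q.1 : ℝ) : ℝ) : ℂ) := by push_cast; rfl
  rw [h, Complex.norm_real, Real.norm_eq_abs, abs_le]
  have h1 := q.1.2.1
  have h2 := q.1.2.2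
  constructor <;> linarith

lemma norm_w_le (q : I × Disc) : ‖wF q‖ ≤ 1 := by
  show ‖(q.2 : ℂ)‖ ≤ 1
  have := q.2.2
  rwa [mem_closedBall_zero_iff] at this

/-- the element `1 - t` -/
def tau : AA := ofGood tauF good_tau 1 norm_tau_le
/-- the element `w` -/
def ww : AA := ofGood wF good_w 1 norm_w_le

open Classical in
/-- the multiplication of a bounded function with the indicator of `E × Sg` -/
def cut (E : Set ℕ) (y : BB) : BB :=
  BoundedContinuousFunction.ofNormedAddCommGroup (fun q => if q.1 ∈ E then y q else 0)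
    (by
      rw [continuous_iff_continuousAt]
      rintro ⟨n, s⟩
      have hopen : {q : ℕ × Sg | q.1 = n} ∈ 𝓝 ((n, s) : ℕ × Sg) :=
        ((isOpen_discrete {n}).preimage continuous_fst).mem_nhds rfl
      by_cases hn : n ∈ E
      · refine (y.continuous.continuousAt).congr ?_
        filter_upwards [hopen] with q hq
        rw [if_pos (by rw [show q.1 = n from hq]; exact hn)]
      · refine (continuousAt_const (y := (0 : ℂ))).congr ?_
        filter_upwards [hopen] with q hq
        rw [if_neg (by rw [show q.1 = n from hq]; exact hn)]) ‖y‖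
    (fun q => by
      split_ifs
      · exact y.norm_coe_le_norm q
      · rw [norm_zero]; exact norm_nonneg _)

open Classical in
lemma cut_apply (E : Set ℕ) (y : BB) (q : ℕ × Sg) : cut E y q = if q.1 ∈ E then y q else 0 := rfl

/-- the indicator function of `E` -/
def chiE (E : Set ℕ) : AA := ⟨cut E 1, InA.of_eventually 0 fun n _ => by
  by_cases hn : n ∈ E
  · refine ⟨ContinuousMap.const _ 1, Good.const 1, fun s => ?_⟩
    rw [cut_apply, if_pos hn]
    rfl
  · refine ⟨ContinuousMap.const _ 0, Good.const 0, fun s => ?_⟩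
    rw [cut_apply, if_neg hn]
    rfl⟩

/-- the cut of any bounded function by a finite set is in the algebra -/
def cutA (E : Set ℕ) (hE : E.Finite) (y : BB) : AA := ⟨cut E y, by
  obtain ⟨N, hN⟩ := hE.bddAbove
  refine InA.of_eventually (N + 1) fun n hn => ⟨ContinuousMap.const _ 0, Good.const 0, fun s => ?_⟩
  have : n ∉ E := fun h => by
    have := hN h
    omega
  rw [cut_apply, if_neg this]
  rfl⟩

lemma chiE_mul (E F : Set ℕ) : chiE E * chiE F = chiE (E ∩ F) := by
  apply Subtype.ext
  ext q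
  show cut E 1 q * cut F 1 q = cut (E ∩ F) 1 q
  simp only [cut_apply, Set.mem_inter_iff]
  by_cases h1 : q.1 ∈ E <;> by_cases h2 : q.1 ∈ F <;> simp [h1, h2]

lemma norm_one_le : ‖(1 : AA)‖ ≤ 1 := by
  show ‖(1 : BB)‖ ≤ 1
  rw [BoundedContinuousFunction.norm_le zero_le_one]
  intro q
  show ‖(1 : ℂ)‖ ≤ 1
  simp

lemma phi_norm_le (φ : WeakDual.characterSpace ℂ AA) (x : AA) (hx : ‖x‖ ≤ 1) : ‖φ x‖ ≤ 1 := by
  have h := spectrum.norm_le_norm_mul_of_mem
    (AlgHom.apply_mem_spectrum (WeakDual.CharacterSpace.toAlgHom φ) x)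
  have h2 : ‖x‖ * ‖(1 : AA)‖ ≤ 1 * 1 :=
    mul_le_mul hx norm_one_le (norm_nonneg _) zero_le_one
  rw [one_mul] at h2
  exact h.trans h2

/-- the denominator -/
def den (s : Sg) : ℝ := (1 - (s.1.1 : ℝ)) ^ 2 + ‖(s.1.2 : ℂ)‖ ^ 2

lemma one_le_den (s : Sg) : 1 ≤ den s := by
  unfold den
  rcases s.2 with h | h
  · rw [h]
    have := sq_nonneg ‖(s.1.2 : ℂ)‖
    linarith
  · rw [h]
    have := sq_nonneg (1 - (s.1.1 : ℝ))
    linarith

lemma den_pos (s : Sg) : 0 < den s := lt_of_lt_of_le one_pos (one_le_den s)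

lemma den_cont : Continuous den := by
  unfold den
  fun_prop

/-- first cofactor -/
def uu : BB := BoundedContinuousFunction.ofNormedAddCommGroup
  (fun q : ℕ × Sg => (((1 - (q.2.1.1 : ℝ)) / den q.2 : ℝ) : ℂ))
  (by
    refine Complex.continuous_ofReal.comp (Continuous.div (by fun_prop)
      (den_cont.comp continuous_snd) fun q => (den_pos _).ne')) 1
  fun q => by
    rw [Complex.norm_real, Real.norm_eq_abs, abs_div, abs_of_pos (den_pos _),
      div_le_one (den_pos _)]
    have h1 := q.2.1.1.2.1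
    have h2 := q.2.1.1.2.2
    have h3 := one_le_den q.2
    rw [abs_of_nonneg (by linarith)]
    linarith

/-- second cofactor -/
def vv : BB := BoundedContinuousFunction.ofNormedAddCommGroup
  (fun q : ℕ × Sg => (starRingEnd ℂ) (q.2.1.2 : ℂ) / ((den q.2 : ℝ) : ℂ))
  (by
    refine Continuous.div (by fun_prop)
      (Complex.continuous_ofReal.comp (den_cont.comp continuous_snd)) fun q => ?_
    exact_mod_cast (den_pos _).ne') 1
  fun q => by
    rw [norm_div, Complex.norm_real, Real.norm_eq_abs, abs_of_pos (den_pos _),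
      div_le_one (den_pos _), RCLike.norm_conj]
    have h2 := norm_w_le q.2.1
    exact le_trans h2 (one_le_den q.2)

lemma tau_uu (q : ℕ × Sg) : (tau : BB) q * uu q + (ww : BB) q * vv q = 1 := by
  show (1 - ((q.2.1.1 : ℝ) : ℂ)) * (((1 - (q.2.1.1 : ℝ)) / den q.2 : ℝ) : ℂ) +
    (q.2.1.2 : ℂ) * ((starRingEnd ℂ) (q.2.1.2 : ℂ) / ((den q.2 : ℝ) : ℂ)) = 1
  have hd : ((den q.2 : ℝ) : ℂ) ≠ 0 := by exact_mod_cast (den_pos q.2).ne'
  have h1 : (q.2.1.2 : ℂ) * (starRingEnd ℂ) (q.2.1.2 : ℂ) = ((‖(q.2.1.2 : ℂ)‖ ^ 2 : ℝ) : ℂ) := by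
    rw [Complex.mul_conj, Complex.normSq_eq_norm_sq]
  have h2 : ((den q.2 : ℝ) : ℂ) = (1 - ((q.2.1.1 : ℝ) : ℂ)) ^ 2 +
      ((‖(q.2.1.2 : ℂ)‖ ^ 2 : ℝ) : ℂ) := by
    unfold den
    push_cast
    ring
  rw [mul_div_assoc', h1]
  push_cast
  rw [mul_div_assoc', ← add_div, div_eq_one_iff_eq hd, h2]
  push_cast
  ring

/-- the open sets -/
def OO (E : Set ℕ) : Set (WeakDual.characterSpace ℂ AA) :=
  {φ | ‖φ tau‖ < 1 / 2 ∧ ‖φ ww‖ < 1 / 2 ∧ 1 / 2 < ‖φ (chiE E)‖}

lemma eval_cont (x : AA) : Continuous fun φ : WeakDual.characterSpace ℂ AA => φ x :=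
  (WeakDual.eval_continuous x).comp continuous_subtype_val

lemma OO_open (E : Set ℕ) : IsOpen (OO E) := by
  unfold OO
  refine IsOpen.inter ?_ (IsOpen.inter ?_ ?_)
  · exact isOpen_lt (eval_cont tau).norm continuous_const
  · exact isOpen_lt (eval_cont ww).norm continuous_const
  · exact isOpen_lt continuous_const (eval_cont (chiE E)).norm

lemma OO_disjoint {E F : Set ℕ} (h : (E ∩ F).Finite) : Disjoint (OO E) (OO F) := by
  rw [Set.disjoint_left]
  rintro φ ⟨h1, h2, h3⟩ ⟨-, -, h4⟩
  set e : AA := chiE (E ∩ F) with he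
  have he2 : e * e = e := by rw [he, chiE_mul, Set.inter_self]
  have hne : φ e ≠ 0 := by
    rw [he, ← chiE_mul, map_mul]
    apply mul_ne_zero
    · apply norm_pos_iff.1
      linarith
    · apply norm_pos_iff.1
      linarith
  have h1e : φ e = 1 := by
    have h5 := congrArg φ he2
    rw [map_mul] at h5
    exact mul_left_cancel₀ hne (by rw [h5, mul_one])
  have hsum : e = tau * cutA (E ∩ F) h uu + ww * cutA (E ∩ F) h vv := by
    apply Subtype.ext
    ext q
    show cut (E ∩ F) 1 q = (tau : BB) q * cut (E ∩ F) uu q + (ww : BB) q * cut (E ∩ F) vv q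
    simp only [cut_apply]
    by_cases hq : q.1 ∈ E ∩ F
    · simp only [hq, if_true]
      rw [tau_uu]
      rfl
    · simp only [hq, if_false, mul_zero, add_zero]
  have h6 := congrArg φ hsum
  rw [map_add, map_mul, map_mul, h1e] at h6
  have hcut : ∀ y : BB, (∀ q, ‖y q‖ ≤ 1) → ‖φ (cutA (E ∩ F) h y)‖ ≤ 1 := by
    intro y hy
    apply phi_norm_le
    show ‖cut (E ∩ F) y‖ ≤ 1
    rw [BoundedContinuousFunction.norm_le zero_le_one]
    intro q
    rw [cut_apply]
    split_ifs
    · exact hy q
    · simp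
  have hu := hcut uu fun q => (uu.norm_coe_le_norm q).trans
    (BoundedContinuousFunction.norm_ofNormedAddCommGroup_le _ zero_le_one _)
  have hv := hcut vv fun q => (vv.norm_coe_le_norm q).trans
    (BoundedContinuousFunction.norm_ofNormedAddCommGroup_le _ zero_le_one _)
  have h7 : (1 : ℝ) ≤ ‖φ tau‖ * 1 + ‖φ ww‖ * 1 := by
    calc (1 : ℝ) = ‖(1 : ℂ)‖ := norm_one.symm
      _ = ‖φ tau * φ (cutA (E ∩ F) h uu) + φ ww * φ (cutA (E ∩ F) h vv)‖ := by rw [← h6]
      _ ≤ ‖φ tau‖ * ‖φ (cutA (E ∩ F) h uu)‖ + ‖φ ww‖ * ‖φ (cutA (E ∩ F) h vv)‖ := by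
        rw [← norm_mul, ← norm_mul]
        exact norm_add_le _ _
      _ ≤ _ := add_le_add (mul_le_mul_of_nonneg_left hu (norm_nonneg _))
        (mul_le_mul_of_nonneg_left hv (norm_nonneg _))
  linarith

/-- the point of the surface over `t = 1` and `w` -/
def top (w : Disc) (hw : ‖(w : ℂ)‖ = 1) : Sg := ⟨(1, w), Or.inr hw⟩

lemma OO_nonempty {E : Set ℕ} (hE : E.Infinite) : (OO E).Nonempty := by
  set J : Ideal AA := Ideal.span {1 - chiE E, tau, ww} with hJ
  have hproper : J ≠ ⊤ := by
    intro htop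
    have h1 : (1 : AA) ∈ J := htop ▸ Submodule.mem_top
    rw [hJ, Ideal.mem_span_insert'] at h1
    obtain ⟨a, h1⟩ := h1
    rw [Ideal.mem_span_pair] at h1
    obtain ⟨b, c, h1⟩ := h1
    obtain ⟨N, hN⟩ := c.2 (1 / 4) (by norm_num)
    obtain ⟨n, hnE, hn⟩ := hE.exists_gt N
    obtain ⟨F, hF, hF'⟩ := hN n hn.le
    -- the relation at the top circle
    have h2 : ∀ (w : Disc) (hw : ‖(w : ℂ)‖ = 1), (c : BB) (n, top w hw) * (w : ℂ) = 1 := by
      intro w hw
      have h3 := congrArg (fun x : AA => (x : BB) (n, top w hw)) h1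
      have h4 : (b : BB) (n, top w hw) * (1 - (((1 : I) : ℝ) : ℂ)) +
          (c : BB) (n, top w hw) * (w : ℂ) =
          1 + (a : BB) (n, top w hw) * (1 - cut E 1 (n, top w hw)) := h3
      rw [cut_apply, if_pos hnE] at h4
      have h5 : (1 : BB) (n, top w hw) = 1 := rfl
      rw [h5, sub_self, mul_zero, add_zero] at h4
      simpa using h4
    have hG : Good (F * wF - ContinuousMap.const _ 1) := (hF.mul good_w).sub (Good.const 1)
    have h6 := slice_max hG (1 : I) (C := 1 / 4) (fun w hw => by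
      show ‖F (1, w) * (w : ℂ) - 1‖ ≤ 1 / 4
      have h7 : F (1, w) * (w : ℂ) - 1 = -((c : BB) (n, top w hw) - F (1, w)) * (w : ℂ) := by
        linear_combination h2 w hw
      rw [h7, norm_mul, norm_neg, hw, mul_one]
      exact hF' (top w hw)) ⟨0, by simp⟩
    have h8 : ‖F (1, (⟨0, by simp⟩ : Disc)) * (0 : ℂ) - 1‖ ≤ 1 / 4 := h6
    rw [mul_zero, zero_sub, norm_neg, norm_one] at h8
    norm_num at h8
  obtain ⟨M, hM, hJM⟩ := Ideal.exists_le_maximal J hproper
  have := hM
  have hz : ∀ x ∈ ({1 - chiE E, tau, ww} : Set AA), M.toCharacterSpace x = 0 := fun x hx =>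
    Ideal.toCharacterSpace_apply_eq_zero_of_mem M (hJM (Ideal.subset_span hx))
  refine ⟨M.toCharacterSpace, ?_, ?_, ?_⟩
  · rw [hz tau (by simp), norm_zero]
    norm_num
  · rw [hz ww (by simp), norm_zero]
    norm_num
  · have h1 := hz (1 - chiE E) (by simp)
    rw [map_sub, map_one, sub_eq_zero] at h1
    rw [← h1, norm_one]
    norm_num

/-- an injective coding of the finite initial segments of a binary sequence -/
def code (α : ℕ → Bool) (n : ℕ) : ℕ := Encodable.encode (List.ofFn fun i : Fin n => α i)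

lemma code_inj (α : ℕ → Bool) : Function.Injective (code α) := by
  intro m n h
  have h1 := Encodable.encode_injective h
  have h2 := congrArg List.length h1
  simpa using h2

lemma code_eq {α β : ℕ → Bool} {m n : ℕ} (h : code α m = code β n) :
    m = n ∧ ∀ i < m, α i = β i := by
  have h1 := Encodable.encode_injective h
  have h2 : m = n := by simpa using congrArg List.length h1
  subst h2
  refine ⟨rfl, fun i hi => ?_⟩
  have h3 := List.ofFn_injective h1
  exact congrFun h3 ⟨i, hi⟩

lemma range_inter_finite {α β : ℕ → Bool} (h : α ≠ β) :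
    (Set.range (code α) ∩ Set.range (code β)).Finite := by
  obtain ⟨j, hj⟩ := Function.ne_iff.1 h
  refine ((Set.finite_Iic j).image (code α)).subset ?_
  rintro _ ⟨⟨m, rfl⟩, ⟨n, hn⟩⟩
  refine ⟨m, ?_, rfl⟩
  rw [Set.mem_Iic]
  by_contra hlt
  push Not at hlt
  exact hj ((code_eq hn.symm).2 j hlt)

lemma not_separable : ¬ TopologicalSpace.SeparableSpace (WeakDual.characterSpace ℂ AA) := by
  intro hsep
  have h4 : Cardinal.mk (ℕ → Bool) = Cardinal.continuum := by simp
  have h1 : (Set.univ : Set (ℕ → Bool)).Countable := by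
    refine Set.PairwiseDisjoint.countable_of_isOpen
      (s := fun α : ℕ → Bool => OO (Set.range (code α))) ?_ (fun α _ => OO_open _)
      (fun α _ => OO_nonempty (Set.infinite_range_of_injective (code_inj α)))
    intro α _ β _ hne
    exact OO_disjoint (range_inter_finite hne)
  have h2 : Countable (ℕ → Bool) := Set.countable_univ_iff.1 h1
  have h3 : Cardinal.mk (ℕ → Bool) ≤ Cardinal.aleph0 := Cardinal.mk_le_aleph0_iff.2 h2
  rw [h4] at h3
  exact absurd h3 (not_le.2 Cardinal.aleph0_lt_continuum)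

/-- **A countably generated spectrum does not force a separable Gelfand space.**  There is a unital
commutative Banach algebra `A` with a countable set of characters which generates the spectrum in
`A`, whose Gelfand space (its character space with the weak-star topology) is not separable. -/
theorem result : ∃ (A : Type) (_ : NormedCommRing A) (_ : NormedAlgebra ℂ A),
    CompleteSpace A ∧
    (∃ S : Set (WeakDual.characterSpace ℂ A), S.Countable ∧ GeneratesSpectrum A S) ∧
    ¬ TopologicalSpace.SeparableSpace (WeakDual.characterSpace ℂ A) :=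
  ⟨AA, inferInstance, inferInstance, inferInstance, ⟨S0, S0_countable, gen⟩, not_separable⟩

end

end Pool.Agent.Results.MP_3ada3c_an.NonSeparableGelfand
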